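import Pool.Agent.H75.CX.Mn

/-!
# [H75 CK Ds] distances in subtrees, long paths through edges

`sub_dist`: distances in a subtree. `Btw X a b x y`: the edge from `a` to `b` is on the path from `x` to `y`.
-/

set_option autoImplicit false

namespace Pool.Agent.H75.CK

open Pool.Agent.H98.FJ Pool.Agent.H93.TR Pool.Agent.H75.CX

/-- distances in a subtree -/
theorem sub_dist {V W : Type} {X : SimpleGraph V} {Y : SimpleGraph W} (hX : X.IsTree) (hY : Y.IsTree) {ι : W → V}
    (hι : Function.Injective ι) (h : ∀ a b : W, Y.Adj a b → X.Adj (ι a) (ι b)) (v w : W) :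
    X.dist (ι v) (ι w) = Y.dist v w := by
  obtain ⟨p, hp, hl⟩ := hY.connected.exists_path_of_dist v w
  let f : Y →g X := ⟨ι, fun {a b} h1 => h a b h1⟩
  have h1 : (p.map f).IsPath := SimpleGraph.Walk.IsPath.map hι hp
  obtain ⟨q, hq, hl'⟩ := hX.connected.exists_path_of_dist (ι v) (ι w)
  have h2 : (p.map f) = q := (hX.existsUnique_path _ _).unique h1 hq
  have h3 : (p.map f).length = p.length := SimpleGraph.Walk.length_map f p
  exact hl'.symm.trans ((congrArg SimpleGraph.Walk.length h2).symm.trans (h3.trans hl))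

/-- the edge from `a` to `b` is on the path from `x` to `y` -/
def Btw {V : Type} (X : SimpleGraph V) (a b x y : V) : Prop := X.dist x a + 1 + X.dist b y = X.dist x y

theorem edge_btw {V : Type} {X : SimpleGraph V} (hX : X.IsTree) {x y : V} (h : x ≠ y) :
    ∃ a b, X.Adj a b ∧ Btw X a b x y := by
  obtain ⟨p, hp⟩ := hX.connected.exists_walk_length_eq_dist x y
  cases p with
  | nil => exact absurd rfl h
  | @cons _ z _ hvz q =>
    refine ⟨x, z, hvz, ?_⟩
    have h1 := SimpleGraph.dist_le q
    have h2 : X.dist x z = 1 := SimpleGraph.dist_eq_one_iff_adj.2 hvz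
    have h3 := hX.connected.dist_triangle (u := x) (v := z) (w := y)
    rw [SimpleGraph.Walk.length_cons] at hp
    unfold Btw
    rw [SimpleGraph.dist_self]
    omega

end Pool.Agent.H75.CK
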