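import Pool.Agent.H75.CX.Defs
import Pool.Agent.H75.CY.Spl
import Pool.Agent.H75.CY.Glu
import Pool.Agent.H75.CY.Tz
import Pool.Agent.H75.CY.Mem

/-!
# [H75 CK Spt] commensurators of split elements

As Pool/Agent/H75/CY/Com.lean; only the intersections of the commensurator with the edge stabilisers are virtually cyclic.
-/

set_option autoImplicit false

namespace Pool.Agent.H75.CK

open Pool.Agent.H98.FJ Pool.Agent.H76.VC Pool.Agent.H93.TR Pool.Agent.H75.CX Pool.Agent.H75.CY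

/-- a split element is split over the corresponding subgroups of a subgroup which contains it -/
private theorem split_sub {G V : Type} [Group G] [MulAction G V] {K : Subgroup G} {z : G} (hzK : z ∈ K) {v : V}
    (h : SplitIn (MulAction.stabilizer G v) z) {E : Subgroup K} (hE : ∀ x ∈ E, (x : G) • v = v) :
    SplitIn E (⟨z, hzK⟩ : K) := by
  intro H hH hHE hHC
  have h1 : H.map K.subtype ≤ MulAction.stabilizer G v := by
    rintro _ ⟨x, hx, rfl⟩
    exact hE x (hHE hx)
  have h2 : H.map K.subtype ≤ Com z := by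
    rintro _ ⟨x, hx, rfl⟩
    obtain ⟨m, n, hm, hn, h3⟩ := hHC hx
    exact ⟨m, n, hm, hn, congrArg Subtype.val h3⟩
  have hfg : (H.map K.subtype).FG := by
    classical
    obtain ⟨S, hS⟩ := hH
    exact ⟨S.image K.subtype, by rw [Finset.coe_image, ← MonoidHom.map_closure, hS]⟩
  obtain ⟨D, f, hf, hj⟩ := h (H.map K.subtype) hfg h1 h2
  let e : H →* H.map K.subtype :=
    { toFun := fun x => ⟨(x : K), ⟨(x : K), x.2, rfl⟩⟩
      map_one' := rfl
      map_mul' := fun _ _ => rfl }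
  refine ⟨D.comp e, fun x => f (e x), fun x y => ?_, fun j hjH hj0 => ?_⟩
  · have h4 := hf (e x) (e y)
    rw [← map_mul] at h4
    exact h4
  · have h5 : z ^ j ∈ H.map K.subtype := ⟨(⟨z, hzK⟩ : K) ^ j, hjH, rfl⟩
    exact hj j h5 hj0

theorem com_split2 {C : (G : Type) → [Group G] → Prop} (hC : Inherits C) (hE : Extension C) (hA : AcylExt C)
    (hS : ∀ (G : Type) [Group G], Group.IsSolvable G → C G) {G V : Type} [Group G] [MulAction G V]
    {X : SimpleGraph V} (hX : OnTree G X) (hv : ∀ v : V, C (MulAction.stabilizer G v)) {z : G}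
    (hz : ¬ IsOfFinOrder z) {v0 : V} (h0 : z • v0 = v0)
    (hEd : ∀ v w : V, X.Adj v w → (∃ k : ℤ, k ≠ 0 ∧ z ^ k • v = v ∧ z ^ k • w = w) →
      VirtuallyCyclic (Com z ⊓ Ps G v w : Subgroup G))
    (hs : ∀ v : V, (∃ k : ℤ, k ≠ 0 ∧ z ^ k • v = v) → SplitIn (MulAction.stabilizer G v) z) : C (Com z) := by
  have hzK : z ∈ Com z := ⟨1, 1, one_ne_zero, one_ne_zero, by group⟩
  have hz' : ¬ IsOfFinOrder (⟨z, hzK⟩ : Com z) := not_fin_sub (z := (⟨z, hzK⟩ : Com z)) hz
  have hc : ∀ g : Com z, g ∈ Com (⟨z, hzK⟩ : Com z) := by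
    rintro ⟨g, m, n, hm, hn, h1⟩
    exact ⟨m, n, hm, hn, Subtype.ext h1⟩
  have hXK : OnTree (Com z) X := res_onTree hX (Com z)
  obtain ⟨W, hW, hY⟩ := pow_tree hXK hc v0 h0
  have hWp : ∀ w : W, ∃ k : ℤ, k ≠ 0 ∧ z ^ k • (w : V) = w := fun w => by
    obtain ⟨k, hk, h1⟩ := (hW w).1 w.2
    exact ⟨k, hk, h1⟩
  have hfix : ∀ w : W, ∃ k : ℤ, k ≠ 0 ∧ (⟨z, hzK⟩ : Com z) ^ k • w = w := fun w => by
    obtain ⟨k, hk, h1⟩ := (hW w).1 w.2
    exact ⟨k, hk, Subtype.ext h1⟩
  have hval : ∀ (g : Com z) (w : W), g • w = w → (g : G) • (w : V) = w := fun g w h =>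
    congrArg (fun x : W => (x : V)) h
  have hvW : ∀ w : W, C (MulAction.stabilizer (Com z) w) := by
    intro w
    refine hC.of_injective (H := MulAction.stabilizer (Com z) (w : V))
      { toFun := fun x => ⟨x.1, hval _ _ x.2⟩
        map_one' := rfl
        map_mul' := fun _ _ => rfl } ?_ (res_stab hC hv (Com z) (w : V))
    intro a b hab
    exact Subtype.ext (congrArg (fun y : MulAction.stabilizer (Com z) (w : V) => (y : Com z)) hab)
  have hEW : EdgeVC (Com z) (X.comap (fun w : W => (w : V))) := by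
    intro v w h
    obtain ⟨k, hk, h1⟩ := hWp v
    obtain ⟨l, hl, h2⟩ := hWp w
    have h3 : z ^ (k * l) • (v : V) = v := by
      rw [zpow_mul]
      exact zpow_fix h1 l
    have h4 : z ^ (k * l) • (w : V) = w := by
      rw [mul_comm, zpow_mul]
      exact zpow_fix h2 k
    let ψ : (MulAction.stabilizer (Com z) v ⊓ MulAction.stabilizer (Com z) w : Subgroup (Com z)) →*
        (Com z ⊓ Ps G (v : V) (w : V) : Subgroup G) :=
      { toFun := fun h => ⟨(h.1 : G), h.1.2, hval _ _ h.2.1, hval _ _ h.2.2⟩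
        map_one' := rfl
        map_mul' := fun _ _ => rfl }
    refine vc_of_injective ψ ?_ (hEd v w h ⟨k * l, mul_ne_zero hk hl, h3, h4⟩)
    intro a b hab
    have h5 : ((a.1 : Com z) : G) = b.1 := congrArg (fun y : (Com z ⊓ Ps G (v : V) (w : V) : Subgroup G) => (y : G)) hab
    exact Subtype.ext (Subtype.ext h5)
  obtain ⟨D, hD⟩ := exists_mod hz' hc
  have hDz : D (⟨z, hzK⟩ : Com z) = 1 := by
    have h1 := mod_self hD 1
    rwa [zpow_one] at h1
  have hcr : ∀ w : W, ∃ f : Com z → ℚ, Cr D (⟨z, hzK⟩ : Com z) (MulAction.stabilizer (Com z) w) f := fun w =>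
    cr_compact hDz fun H hH hHE =>
      norm_fg hz' hc hD (split_sub hzK (hs w (hWp w)) fun x hx => hval x w hx) hH hHE
  obtain ⟨f, hf⟩ := glue hY hEW hz' hc hD hfix hcr
  exact mem_of_cr hC hE hA hS hY hvW hEW hz' hfix hf

end Pool.Agent.H75.CK
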