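import Pool.Agent.H75.CK.Ds
import Pool.Agent.H75.CX.Vp1
import Pool.Agent.H75.CX.Vp3

/-!
# [H75 CK Trf] conditions on the stabilisers of long paths

`Lng`: for every edge the stabilisers of the long paths through the edge are virtually polycyclic of bounded length, and their finite subgroups are bounded. `BdP X k P`: for every `N` and every edge
fixed by a subgroup of finite index of `P` the finite indices `[R : N]` are bounded, where `N` is normal in `R` and `R` is contained in the commensurator of `P` and in the stabiliser of a long path through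
the edge. `lng_tr`: restriction to subgroups and subtrees. `lng_of_vp`, `bdp_of_vp`: virtually polycyclic edge stabilisers, respectively intersections of the edge stabilisers with the commensurator.
-/

set_option autoImplicit false

namespace Pool.Agent.H75.CK

open Pool.Agent.H98.FJ Pool.Agent.H93.TR Pool.Agent.H75.CX

/-- for every edge there is a number `n` such that the stabilisers of the paths of length at least `k` through the edge are virtually
polycyclic of length at most `n`, and their finite subgroups have at most `n` elements -/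
def Lng (G : Type) [Group G] {V : Type} [MulAction G V] (X : SimpleGraph V) (k : ℕ) : Prop :=
  ∀ a b : V, X.Adj a b → ∃ n : ℕ, ∀ x y : V, k ≤ X.dist x y → Btw X a b x y →
    VPn n (Ps G x y) ∧ ∀ F : Subgroup G, F ≤ Ps G x y → (F : Set G).Finite → (F : Set G).ncard ≤ n

/-- for every subgroup `N` and every edge there is a number `n` such that all subgroups `R` which fix a path of length at least `k`
through the edge are virtually polycyclic of length at most `n`, and if `R` contains and normalises `N` then the index of `N` in `R` is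
infinite or at most `n` (`relIndex` is `0` for infinite indices) -/
def Lgp (G : Type) [Group G] {V : Type} [MulAction G V] (X : SimpleGraph V) (k : ℕ) : Prop :=
  ∀ (N : Subgroup G) (a b : V), X.Adj a b → ∃ n : ℕ, ∀ (R : Subgroup G) (x y : V), k ≤ X.dist x y → Btw X a b x y →
    R ≤ Ps G x y → VPn n R ∧ (N ≤ R → R ≤ Subgroup.normalizer (N : Set G) → N.relIndex R ≤ n)

/-- for every subgroup `N` and every edge fixed by a subgroup of finite index of `P` there is a bound for the finite indices of `N` in
the subgroups `R` of the commensurator of `P` which normalise `N` and fix a path of length at least `k` through the edge (`relIndex` is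
`0` for infinite indices) -/
def BdP {G V : Type} [Group G] [MulAction G V] (X : SimpleGraph V) (k : ℕ) (P : Subgroup G) : Prop :=
  ∀ (N : Subgroup G) (a b : V), X.Adj a b → (∃ P' : Subgroup G, P' ≤ P ∧ P'.relIndex P ≠ 0 ∧ P' ≤ Ps G a b) →
    ∃ m : ℕ, ∀ (R : Subgroup G) (x y : V), k ≤ X.dist x y → Btw X a b x y → N ≤ R → R ≤ Ps G x y →
      R ≤ Subgroup.Commensurable.commensurator P → R ≤ Subgroup.normalizer (N : Set G) → N.relIndex R ≤ m

section

variable {G V H W : Type} [Group G] [MulAction G V] [Group H] [MulAction H W] {X : SimpleGraph V} {Y : SimpleGraph W}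

/-- the stabilisers of paths -/
theorem ps_tr (φ : H →* G) {ι : W → V} (hact : ∀ (h : H) (w : W), ι (h • w) = φ h • ι w) {x y : W} {h : H}
    (hh : h ∈ Ps H x y) : φ h ∈ Ps G (ι x) (ι y) := by
  obtain ⟨h1, h2⟩ := hh
  change h • x = x at h1
  change h • y = y at h2
  refine ⟨?_, ?_⟩
  · show φ h • ι x = ι x
    rw [← hact, h1]
  · show φ h • ι y = ι y
    rw [← hact, h2]

theorem btw_tr (hX : X.IsTree) (hY : Y.IsTree) {ι : W → V} (hι : Function.Injective ι)
    (hadj : ∀ a b : W, Y.Adj a b → X.Adj (ι a) (ι b)) {a b x y : W} (h : Btw Y a b x y) : Btw X (ι a) (ι b) (ι x) (ι y) := by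
  unfold Btw at h ⊢
  rw [sub_dist hX hY hι hadj, sub_dist hX hY hι hadj, sub_dist hX hY hι hadj]
  exact h

theorem lng_tr (hX : X.IsTree) (hY : Y.IsTree) (φ : H →* G) (hφ : Function.Injective φ) {ι : W → V} (hι : Function.Injective ι)
    (hact : ∀ (h : H) (w : W), ι (h • w) = φ h • ι w) (hadj : ∀ a b : W, Y.Adj a b → X.Adj (ι a) (ι b)) {k : ℕ}
    (h : Lng G X k) : Lng H Y k := by
  intro a b hab
  obtain ⟨n, hn⟩ := h (ι a) (ι b) (hadj a b hab)
  refine ⟨n, fun x y hxy hbt => ?_⟩
  obtain ⟨h1, h2⟩ := hn (ι x) (ι y) (by rw [sub_dist hX hY hι hadj]; exact hxy) (btw_tr hX hY hι hadj hbt)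
  refine ⟨?_, ?_⟩
  · let ψ : Ps H x y →* Ps G (ι x) (ι y) :=
      { toFun := fun z => ⟨φ z.1, ps_tr φ hact z.2⟩
        map_one' := Subtype.ext (map_one φ)
        map_mul' := fun u v => Subtype.ext (map_mul φ u.1 v.1) }
    refine vpn_inj ψ ?_ h1
    intro u v huv
    have h3 : φ u.1 = φ v.1 := congrArg (fun z : Ps G (ι x) (ι y) => (z : G)) huv
    exact Subtype.ext (hφ h3)
  · intro F hF hf
    have h3 := h2 (F.map φ) (by
      rintro _ ⟨z, hz, rfl⟩
      exact ps_tr φ hact (hF hz)) (by
      rw [Subgroup.coe_map]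
      exact hf.image _)
    rw [Subgroup.coe_map] at h3
    rwa [Set.ncard_image_of_injective _ hφ] at h3

end

variable {G V : Type} [Group G] [MulAction G V] {X : SimpleGraph V}

/-- the stabiliser of a path through an edge is contained in the stabiliser of the edge -/
theorem btw_le (hX : OnTree G X) {a b x y : V} (hab : X.Adj a b) (h : Btw X a b x y) : Ps G x y ≤ Ps G a b := by
  have h1 : X.dist a b = 1 := SimpleGraph.dist_eq_one_iff_adj.2 hab
  have h2 := hX.tree.connected.dist_triangle (u := x) (v := a) (w := y)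
  have h3 := hX.tree.connected.dist_triangle (u := a) (v := b) (w := y)
  have h4 := hX.tree.connected.dist_triangle (u := x) (v := b) (w := y)
  have h5 := hX.tree.connected.dist_triangle (u := x) (v := a) (w := b)
  unfold Btw at h
  intro g hg
  exact ⟨ps_sub hX (by omega) hg, ps_sub hX (by omega) hg⟩

theorem lng_of_vp (hX : OnTree G X) (hE : ∀ a b : V, X.Adj a b → VP (Ps G a b)) (k : ℕ) : Lng G X k := by
  intro a b hab
  obtain ⟨n, hn⟩ := hE a b hab
  obtain ⟨m, hm⟩ := fin_bd' (hE a b hab)
  refine ⟨max n m, fun x y _ hbt => ⟨?_, fun F hF hf => ?_⟩⟩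
  · exact vpn_mono (le_max_left n m) (vpn_inj (Subgroup.inclusion (btw_le hX hab hbt)) (Subgroup.inclusion_injective _) hn)
  · exact (hm F (hF.trans (btw_le hX hab hbt)) hf).trans (le_max_right n m)

/-- the bounds if the intersections of the edge stabilisers with the commensurator are virtually polycyclic -/
theorem bdp_of_vp (hX : OnTree G X) (k : ℕ) {P : Subgroup G}
    (hE : ∀ a b : V, X.Adj a b → (∃ P' : Subgroup G, P' ≤ P ∧ P'.relIndex P ≠ 0 ∧ P' ≤ Ps G a b) →
      VP (Subgroup.Commensurable.commensurator P ⊓ Ps G a b : Subgroup G)) : BdP X k P := by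
  intro N₀ a b hab hP'
  obtain ⟨N, hN⟩ : ∃ N : Subgroup G, N = Subgroup.normalizer (N₀ : Set G) ⊓
    (Subgroup.Commensurable.commensurator P ⊓ Ps G a b) := ⟨_, rfl⟩
  have hNV : VP N := vp_le (hN ▸ inf_le_right) (hE a b hab hP')
  have hnorm : (N₀.subgroupOf N).Normal := by
    refine ⟨?_⟩
    rintro ⟨z, hz⟩ hzP ⟨g, hg⟩
    rw [Subgroup.mem_subgroupOf] at hzP ⊢
    have h1 : g ∈ Subgroup.normalizer (N₀ : Set G) := by
      rw [hN] at hg
      exact hg.1
    exact (Subgroup.mem_normalizer_iff.1 h1 z).1 hzP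
  obtain ⟨M, hM⟩ := fin_bd (vp_surj (QuotientGroup.mk' (N₀.subgroupOf N)) (QuotientGroup.mk'_surjective _) hNV)
  refine ⟨M, fun R x y _ hbt hPR hR hRC hRN => ?_⟩
  have hle : R ≤ N := by
    rw [hN]
    exact le_inf hRN (le_inf hRC (hR.trans (btw_le hX hab hbt)))
  have h1 : N₀.relIndex R = Nat.card ((R.subgroupOf N).map (QuotientGroup.mk' (N₀.subgroupOf N))) := by
    rw [← Subgroup.relIndex_ker, QuotientGroup.ker_mk', Subgroup.relIndex_subgroupOf hle]
  rw [h1]
  by_cases hf : Finite ((R.subgroupOf N).map (QuotientGroup.mk' (N₀.subgroupOf N)))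
  · exact hM _ hf
  · rw [not_finite_iff_infinite] at hf
    rw [Nat.card_eq_zero_of_infinite]
    exact Nat.zero_le _

theorem lng_of_lgp {k : ℕ} (h : Lgp G X k) : Lng G X k := by
  intro a b hab
  obtain ⟨n, hn⟩ := h ⊥ a b hab
  refine ⟨n, fun x y hxy hbt => ⟨?_, fun F hF _ => ?_⟩⟩
  · exact (hn (Ps G x y) x y hxy hbt le_rfl).1
  · have h1 := (hn F x y hxy hbt hF).2 bot_le (by
      intro g _
      rw [Subgroup.mem_normalizer_iff]
      intro z
      rw [Subgroup.mem_bot, Subgroup.mem_bot]
      constructor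
      · rintro rfl
        group
      · intro h2
        have h3 : z = g⁻¹ * (g * z * g⁻¹) * g := by group
        rw [h3, h2]
        group)
    rw [Subgroup.relIndex_bot_left] at h1
    exact h1

theorem bdp_of_lgp {k : ℕ} (h : Lgp G X k) (P : Subgroup G) : BdP X k P := by
  intro N a b hab _
  obtain ⟨n, hn⟩ := h N a b hab
  exact ⟨n, fun R x y hxy hbt hNR hR _ hRN => (hn R x y hxy hbt hR).2 hNR hRN⟩

/-- virtually polycyclic edge stabilisers -/
theorem lgp_of_vp (hX : OnTree G X) (hE : ∀ a b : V, X.Adj a b → VP (Ps G a b)) (k : ℕ) : Lgp G X k := by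
  intro N a b hab
  obtain ⟨n, hn⟩ := hE a b hab
  obtain ⟨N₁, hN₁⟩ : ∃ N₁ : Subgroup G, N₁ = Subgroup.normalizer (N : Set G) ⊓ Ps G a b := ⟨_, rfl⟩
  have hNV : VP N₁ := vp_le (hN₁ ▸ inf_le_right) (hE a b hab)
  have hnorm : (N.subgroupOf N₁).Normal := by
    refine ⟨?_⟩
    rintro ⟨z, hz⟩ hzP ⟨g, hg⟩
    rw [Subgroup.mem_subgroupOf] at hzP ⊢
    have h1 : g ∈ Subgroup.normalizer (N : Set G) := by
      rw [hN₁] at hg
      exact hg.1
    exact (Subgroup.mem_normalizer_iff.1 h1 z).1 hzP
  obtain ⟨M, hM⟩ := fin_bd (vp_surj (QuotientGroup.mk' (N.subgroupOf N₁)) (QuotientGroup.mk'_surjective _) hNV)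
  refine ⟨max n M, fun R x y _ hbt hR => ⟨?_, fun hNR hRN => ?_⟩⟩
  · exact vpn_mono (le_max_left n M) (vpn_inj (Subgroup.inclusion (hR.trans (btw_le hX hab hbt)))
      (Subgroup.inclusion_injective _) hn)
  · refine le_trans ?_ (le_max_right n M)
    have hle : R ≤ N₁ := by
      rw [hN₁]
      exact le_inf hRN (hR.trans (btw_le hX hab hbt))
    have h1 : N.relIndex R = Nat.card ((R.subgroupOf N₁).map (QuotientGroup.mk' (N.subgroupOf N₁))) := by
      rw [← Subgroup.relIndex_ker, QuotientGroup.ker_mk', Subgroup.relIndex_subgroupOf hle]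
    rw [h1]
    by_cases hf : Finite ((R.subgroupOf N₁).map (QuotientGroup.mk' (N.subgroupOf N₁)))
    · exact hM _ hf
    · rw [not_finite_iff_infinite] at hf
      rw [Nat.card_eq_zero_of_infinite]
      exact Nat.zero_le _

end Pool.Agent.H75.CK
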