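import Pool.Agent.H75.CK.Ext
import Pool.Agent.H75.CK.Trf
import Pool.Agent.H75.CX.St0
import Pool.Agent.H75.CX.Vp2
import Pool.Agent.H75.CX.Vp3
import Pool.Agent.H75.CX.Vp4
import Pool.Agent.H75.CX.Cml
import Pool.Agent.H75.CX.Mn
import Pool.Agent.H76.VC.Sub

/-!
# [H75 CK Sm0] the step for one group which acts on a tree, long paths

As Pool/Agent/H75/CX/St0.lean; the conditions are only for the stabilisers of the paths of length at least `k`. Let `W`, `Y` be the subtree of `Pool.Agent.H76.VC.exists_subtree`, `p : H → Q` the action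
on `W`. `Lng` gives a uniform length for the long paths of `Y`, `hBn` for `N = ker p` a uniform bound for the finite stabilisers in `Q` of long paths. If there is a long path `ker p` is contained in its
stabiliser, so it is virtually polycyclic.
-/

set_option autoImplicit false

namespace Pool.Agent.H75.CK

open Pool.Agent.H98.FJ Pool.Agent.H93.TR Pool.Agent.H76.VC Pool.Agent.H76.GT Pool.Agent.H75.CX

private theorem cj_ps {H V : Type} [Group H] [MulAction H V] (g : H) {x y : V} {z : H} (hz : z ∈ Ps H x y) :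
    g⁻¹ * z * g ∈ Ps H (g⁻¹ • x) (g⁻¹ • y) := by
  obtain ⟨h3, h4⟩ := hz
  change z • x = x at h3
  change z • y = y at h4
  refine ⟨?_, ?_⟩
  · show (g⁻¹ * z * g) • g⁻¹ • x = g⁻¹ • x
    rw [mul_smul, mul_smul, smul_inv_smul, h3]
  · show (g⁻¹ * z * g) • g⁻¹ • y = g⁻¹ • y
    rw [mul_smul, mul_smul, smul_inv_smul, h4]

private theorem cj_vpn {H V : Type} [Group H] [MulAction H V] (g : H) {x y : V} {n : ℕ}
    (h : VPn n (Ps H (g⁻¹ • x) (g⁻¹ • y))) : VPn n (Ps H x y) := by
  let f : Ps H x y →* Ps H (g⁻¹ • x) (g⁻¹ • y) :=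
    { toFun := fun z => ⟨g⁻¹ * z.1 * g, cj_ps g z.2⟩
      map_one' := by
        apply Subtype.ext
        show g⁻¹ * (1 : H) * g = 1
        group
      map_mul' := by
        intro u v
        apply Subtype.ext
        show g⁻¹ * ((u : H) * (v : H)) * g = (g⁻¹ * (u : H) * g) * (g⁻¹ * (v : H) * g)
        group }
  refine vpn_inj f ?_ h
  intro u v huv
  have h3 : g⁻¹ * (u : H) * g = g⁻¹ * (v : H) * g := congrArg (fun z : Ps H (g⁻¹ • x) (g⁻¹ • y) => (z : H)) huv
  exact Subtype.ext (mul_left_cancel (mul_right_cancel h3))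

private theorem cj_btw {H V : Type} [Group H] [MulAction H V] {X : SimpleGraph V} (hX : OnTree H X) (g : H) {a b x y : V}
    {k : ℕ} (hxy : k ≤ X.dist x y) (h : Btw X (g • a) (g • b) x y) :
    k ≤ X.dist (g⁻¹ • x) (g⁻¹ • y) ∧ Btw X a b (g⁻¹ • x) (g⁻¹ • y) := by
  have e : ∀ u v : V, X.dist (g⁻¹ • u) (g⁻¹ • v) = X.dist u v := fun u v => dist_sm' hX g⁻¹ u v
  have e' : ∀ u v : V, X.dist (g⁻¹ • u) v = X.dist u (g • v) := fun u v => by
    rw [← e u (g • v), inv_smul_smul]
  have e'' : ∀ u v : V, X.dist v (g⁻¹ • u) = X.dist (g • v) u := fun u v => by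
    rw [← e (g • v) u, inv_smul_smul]
  refine ⟨by rw [e]; exact hxy, ?_⟩
  unfold Btw at h ⊢
  rw [e, e', e'']
  exact h

theorem step0m {C : (G : Type) → [Group G] → Prop} (hC : Inherits C) (hT : Transfer C)
    (hS : ∀ (G : Type) [Group G], Group.IsSolvable G → C G) {H V : Type} [Group H] [MulAction H V] (hfg : Group.FG H)
    {X : SimpleGraph V} (hX : OnTree H X) (hv : ∀ v : V, C (MulAction.stabilizer H v))
    {k : ℕ} (hk : 1 ≤ k) (hE : Lng H X k)
    (hBn : ∀ (N : Subgroup H) (a b : V), N.Normal → X.Adj a b → ∃ m : ℕ, ∀ (R : Subgroup H) (x y : V), k ≤ X.dist x y →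
      Btw X a b x y → N ≤ R → R ≤ Ps H x y → N.relIndex R ≤ m) (hcm : ∀ x y : V, k ≤ X.dist x y → (Kf H V).relIndex (Ps H x y) = 0 →
      C (Subgroup.Commensurable.commensurator (Ps H x y))) : C H := by
  obtain ⟨W, Y, hY, hYX, hB⟩ := exists_subtree hX hfg
  · obtain ⟨ρ, hρ⟩ : ∃ ρ : H →* Equiv.Perm W, ρ = MulAction.toPermHom H W := ⟨_, rfl⟩
    have hρ' : ∀ (h : H) (w : W), ρ h w = h • w := by
      intro h w
      rw [hρ]
      rfl
    let p : H →* ρ.range := ρ.rangeRestrict
    have hp : Function.Surjective p := ρ.rangeRestrict_surjective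
    have hact : ∀ (h : H) (w : W), p h • w = h • w := hρ'
    have hQY : OnTree ρ.range Y := by
      refine ⟨hY.tree, fun q v w h => ?_⟩
      obtain ⟨g, rfl⟩ := hp q
      rw [hact, hact]
      exact hY.adj g v w h
    have hval : ∀ (h : H) (w : W), p h • w = w ↔ h • (w : V) = w := by
      intro h w
      rw [hact]
      exact ⟨fun e => congrArg Subtype.val e, fun e => Subtype.ext e⟩
    have hPc : ∀ x y : W, (Ps ρ.range x y).comap p = Ps H (x : V) (y : V) := by
      intro x y
      ext h
      rw [Subgroup.mem_comap, mem_ps, mem_ps, hval, hval]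
    have hneV : ∀ x y : W, k ≤ Y.dist x y → k ≤ X.dist (x : V) y := fun x y h => by
      rw [sub_dist hX.tree hY.tree (ι := fun w : W => (w : V)) Subtype.val_injective hYX x y]
      exact h
    have hkn : ∀ x y : W, k ≤ Y.dist x y → x ≠ y := by
      rintro x y h rfl
      rw [SimpleGraph.dist_self] at h
      omega
    -- the surjection of the path stabilisers
    have hPm : ∀ (x y : W), ∃ f : Ps H (x : V) (y : V) →* Ps ρ.range x y, Function.Surjective f := by
      intro x y
      refine ⟨{ toFun := fun h => ⟨p h.1, by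
                  have h1 : h.1 ∈ (Ps ρ.range x y).comap p := by
                    rw [hPc]
                    exact h.2
                  exact h1⟩
                map_one' := Subtype.ext (map_one p)
                map_mul' := fun a b => Subtype.ext (map_mul p a.1 b.1) }, ?_⟩
      rintro ⟨q, hq⟩
      obtain ⟨h, rfl⟩ := hp q
      have h1 : h ∈ (Ps ρ.range x y).comap p := hq
      rw [hPc] at h1
      exact ⟨⟨h, h1⟩, rfl⟩
    have hds : ∀ x y : W, X.dist (x : V) y = Y.dist x y := fun x y =>
      sub_dist hX.tree hY.tree (ι := fun w : W => (w : V)) Subtype.val_injective hYX x y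
    have hbt : ∀ x y : W, k ≤ Y.dist x y → ∃ a b : W, Y.Adj a b ∧ Btw X (a : V) b x y := by
      intro x y hxy
      obtain ⟨a, b, hab, h⟩ := edge_btw hY.tree (hkn x y hxy)
      exact ⟨a, b, hab, btw_tr hX.tree hY.tree (ι := fun w : W => (w : V)) Subtype.val_injective hYX h⟩
    -- chains
    obtain ⟨n, hn⟩ := hB (fun n a b => ∀ x y : V, k ≤ X.dist x y → Btw X a b x y → VPn n (Ps H x y))
      (fun m n a b hmn h x y hxy hab => vpn_mono hmn (h x y hxy hab))
      (fun n g a b h x y hxy hab => by
        obtain ⟨h1, h2⟩ := cj_btw hX g hxy hab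
        exact cj_vpn g (h _ _ h1 h2)) (by
        intro a b hab
        obtain ⟨n, hn⟩ := hE a b hab
        exact ⟨n, fun x y hxy hbt => (hn x y hxy hbt).1⟩)
    have hnH : ∀ x y : W, k ≤ Y.dist x y → VPn n (Ps H (x : V) y) := by
      intro x y hxy
      obtain ⟨a, b, hab, h⟩ := hbt x y hxy
      exact hn a b hab x y (hneV x y hxy) h
    have hD : Ch (fun P : Subgroup ρ.range => ∃ x y : W, k ≤ Y.dist x y ∧ P = Ps ρ.range x y) n := by
      intro P hP hP' l
      obtain ⟨x, y, hxy, h0⟩ := hP 0
      have hanti : ∀ i, P i ≤ P 0 := by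
        intro i
        induction i with
        | zero => exact le_rfl
        | succ i ih => exact (hP' i).trans ih
      obtain ⟨f, hf⟩ := hPm x y
      exact ch_sub (vpn_surj f hf (hnH x y hxy)) P (fun i => (hanti i).trans h0.le) hP' l
    -- finite stabilisers
    obtain ⟨M, hM⟩ := hB (fun m a b => ∀ (R : Subgroup H) (x y : V), k ≤ X.dist x y → Btw X a b x y → p.ker ≤ R →
        R ≤ Ps H x y → p.ker.relIndex R ≤ m)
      (fun m n a b hmn h R x y hxy hab hR hR' => (h R x y hxy hab hR hR').trans hmn)
      (by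
        intro m g a b h R x y hxy hab hR hR'
        obtain ⟨h1, h2⟩ := cj_btw hX g hxy hab
        have hi : Function.Injective (MulAut.conj g⁻¹).toMonoidHom := (MulAut.conj g⁻¹).injective
        have h3 : p.ker.map (MulAut.conj g⁻¹).toMonoidHom = p.ker := by
          have hle : ∀ u : H, p.ker.map (MulAut.conj u).toMonoidHom ≤ p.ker := by
            rintro u _ ⟨z, hz, rfl⟩
            exact (inferInstance : p.ker.Normal).conj_mem z hz u
          refine le_antisymm (hle _) ?_
          intro z hz
          refine ⟨g * z * g⁻¹, (inferInstance : p.ker.Normal).conj_mem z hz g, ?_⟩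
          show g⁻¹ * (g * z * g⁻¹) * g⁻¹⁻¹ = z
          group
        rw [← Subgroup.relIndex_map_map_of_injective p.ker R hi, h3]
        refine h (R.map (MulAut.conj g⁻¹).toMonoidHom) _ _ h1 h2 ?_ ?_
        · have h4 := Subgroup.map_mono (f := (MulAut.conj g⁻¹).toMonoidHom) hR
          rwa [h3] at h4
        · rintro _ ⟨z, hz, rfl⟩
          show g⁻¹ * z * g⁻¹⁻¹ ∈ Ps H (g⁻¹ • x) (g⁻¹ • y)
          rw [inv_inv]
          exact cj_ps g (hR' hz))
      (by
        intro a b hab
        exact hBn p.ker a b inferInstance hab)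
    refine Pool.Agent.H75.CK.com_ext hC hT hfg p hp hQY (k := k) (D := n) (N := M) ?_ ?_ hD ?_ ?_
    · intro w
      exact hC.of_injective
        { toFun := fun x : (MulAction.stabilizer ρ.range w).comap p =>
            (⟨x.1, (hval x.1 w).1 x.2⟩ : MulAction.stabilizer H (w : V))
          map_one' := rfl
          map_mul' := fun _ _ => rfl } (fun a b hab => Subtype.ext (Subtype.mk.inj hab)) (hv w)
    · intro x0 y0 hxy0 U hU
      let f : U.comap p →* U :=
        { toFun := fun x => ⟨p x.1, x.2⟩
          map_one' := Subtype.ext (map_one p)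
          map_mul' := fun a b => Subtype.ext (map_mul p a.1 b.1) }
      have hf : Function.Surjective f := by
        rintro ⟨q, hq⟩
        obtain ⟨h, rfl⟩ := hp q
        exact ⟨⟨h, hq⟩, rfl⟩
      have hfix : ∀ x : f.ker, ∀ w : W, x.1.1 • (w : V) = w := by
        intro x w
        have h1 : p x.1.1 = 1 := congrArg Subtype.val (show f x.1 = 1 from x.2)
        rw [← hval, h1, one_smul]
      have hk : VP f.ker := by
        refine vp_inj (B := Ps H (x0 : V) (y0 : V))
          { toFun := fun x : f.ker => (⟨x.1.1, hfix x x0, hfix x y0⟩ : Ps H (x0 : V) (y0 : V))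
            map_one' := rfl
            map_mul' := fun _ _ => rfl } (fun a b hab => Subtype.ext (Subtype.ext (Subtype.mk.inj hab)))
          ⟨n, hnH x0 y0 hxy0⟩
      exact vp_mem hC hS (vp_ext f hf hk hU)
    · intro x y hxy hfin
      obtain ⟨a, b, hab, h⟩ := hbt x y hxy
      have h1 := hM a b hab (Ps H (x : V) y) x y (hneV x y hxy) h (by
        rw [← hPc]
        exact Subgroup.ker_le_comap p _) le_rfl
      rw [Subgroup.relIndex_ker] at h1
      have h2 : (Ps H (x : V) (y : V)).map p = Ps ρ.range x y := by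
        rw [← hPc, Subgroup.map_comap_eq_self_of_surjective hp]
      rw [h2] at h1
      exact h1
    · intro x y hxy hinf
      rw [com_comap p hp, hPc]
      refine hcm _ _ (hneV x y hxy) ?_
      have h1 : Kf H V ≤ p.ker := by
        intro h hh
        rw [mem_kf] at hh
        rw [MonoidHom.mem_ker]
        apply Subtype.ext
        apply Equiv.ext
        intro w
        show ρ h w = w
        rw [hρ']
        exact Subtype.ext (hh w)
      refine Subgroup.relIndex_eq_zero_of_le_left h1 ?_
      rw [Subgroup.relIndex_ker]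
      have h2 : (Ps H (x : V) (y : V)).map p = Ps ρ.range x y := by
        rw [← hPc, Subgroup.map_comap_eq_self_of_surjective hp]
      rw [h2]
      have h3 : Infinite (Ps ρ.range x y) := Set.infinite_coe_iff.2 hinf
      exact Nat.card_eq_zero_of_infinite

end Pool.Agent.H75.CK
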