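import Pool.Agent.H75.CK.Smp
import Pool.Agent.H75.CX.Jmp

/-!
# [H75 CK Smj] descending induction on the length, long paths

As Pool/Agent/H75/CX/Jmp.lean. `hE`: uniform length of the stabilisers of the paths of length at least `k`.
-/

set_option autoImplicit false

namespace Pool.Agent.H75.CK

open Pool.Agent.H98.FJ Pool.Agent.H93.TR Pool.Agent.H76.VC Pool.Agent.H76.GT Pool.Agent.H75.CX

theorem indm {C : (G : Type) → [Group G] → Prop} (hC : Inherits C) (hT : Transfer C)
    (hS : ∀ (G : Type) [Group G], Group.IsSolvable G → C G) {G V : Type} [Group G] [MulAction G V]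
    {X : SimpleGraph V} (hX : OnTree G X) (hv : ∀ v : V, C (MulAction.stabilizer G v)) {k : ℕ} (hk : 1 ≤ k) {n : ℕ}
    (hE : ∀ v w : V, k ≤ X.dist v w → VPn n (Ps G v w))
    (hF : Lng G X k)
    (hb : ∀ P : Subgroup G, Infinite P → (∃ v w : V, k ≤ X.dist v w ∧ P ≤ Ps G v w) →
      BalS P ∧ BdP X k P ∨ C (Subgroup.Commensurable.commensurator P))
    {P : Subgroup G} (hi : Infinite P) (hP : ∃ v w : V, k ≤ X.dist v w ∧ P ≤ Ps G v w) :
    C (Subgroup.Commensurable.commensurator P) := by
  have key : ∀ (d j : ℕ), j + d = n + 1 → ∀ P : Subgroup G, Infinite P →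
      (∃ v w : V, k ≤ X.dist v w ∧ P ≤ Ps G v w) → Jm P j →
        C (Subgroup.Commensurable.commensurator P) := by
    intro d
    induction d with
    | zero =>
      intro j hj P hi hP hJ
      obtain ⟨v, w, hvw, hPv⟩ := hP
      have h1 := jm_le hPv (hE v w hvw) hJ
      omega
    | succ d ih =>
      intro j hj P hi hP hJ
      rcases hb P hi hP with ⟨hB, hBd⟩ | hB
      swap
      · exact hB
      refine of_fg hC _ fun H hH => ?_
      have hH' : (H.map (Subgroup.Commensurable.commensurator P).subtype).FG := by
        obtain ⟨S, hS'⟩ := hH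
        classical
        refine ⟨S.image (Subgroup.Commensurable.commensurator P).subtype, ?_⟩
        rw [Finset.coe_image, ← MonoidHom.map_closure, hS']
      have hHc : H.map (Subgroup.Commensurable.commensurator P).subtype ≤ Subgroup.Commensurable.commensurator P := by
        rintro _ ⟨x, _, rfl⟩
        exact x.2
      obtain ⟨P', h1, h2, h3⟩ := hB _ hH' hHc
      obtain ⟨v, w, hvw, hPv⟩ := hP
      have h4 : C (H.map (Subgroup.Commensurable.commensurator P).subtype) := by
        refine stepm hC hT hS hX hv hk hF hBd hH' hHc h1 h2 h3 v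
          (fun y hy => (hPv (h1 hy)).1) fun P1 h5 h6 h7 => ?_
        have hi1 : Infinite P1 := by
          by_contra hfi
          rw [not_infinite_iff_finite] at hfi
          exact Subgroup.index_ne_zero_of_finite (H := P'.subgroupOf P1) h6
        exact ih (j + 1) (by omega) P1 hi1 h7 (jm_up h1 h2 h5 h6 hJ)
      exact hC.iso _ _ (H.equivMapOfInjective _
        (Subgroup.subtype_injective (Subgroup.Commensurable.commensurator P))).symm h4
  exact key (n + 1) 0 (by omega) P hi hP (jm_zero P)

end Pool.Agent.H75.CK
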