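import Pool.Agent.H75.CK.Smj
import Pool.Agent.H75.CX.Man

/-!
# [H75 CK Smm] groups acting on trees such that the stabilisers of long paths are virtually polycyclic

`mainM_fg`: let `W`, `Y` be the subtree of `Pool.Agent.H76.VC.exists_subtree`; there is a uniform `n` for the edges of `Y`, so for the paths of `Y` of length at least `k`. `com_ext` for the identity of `G`,
and `indm` for the commensurators. `mainM`: `Pool.Agent.H76.VC.of_fg`.
-/

set_option autoImplicit false

namespace Pool.Agent.H75.CK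

open Pool.Agent.H98.FJ Pool.Agent.H93.TR Pool.Agent.H76.VC Pool.Agent.H76.GT Pool.Agent.H75.CX

private theorem ps_val {G V : Type} [Group G] [MulAction G V] (W : SubMulAction G V) (a b : W) :
    Ps G a b = Ps G (a : V) (b : V) := by
  ext g
  constructor
  · rintro ⟨h1, h2⟩
    exact ⟨congrArg (fun z : W => (z : V)) h1, congrArg (fun z : W => (z : V)) h2⟩
  · rintro ⟨h1, h2⟩
    exact ⟨Subtype.ext h1, Subtype.ext h2⟩

private theorem stab_val {G V : Type} [Group G] [MulAction G V] (W : SubMulAction G V) (a : W) :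
    MulAction.stabilizer G a = MulAction.stabilizer G (a : V) := by
  ext g
  constructor
  · intro h1
    exact congrArg (fun z : W => (z : V)) h1
  · intro h1
    exact Subtype.ext h1

private theorem fg_map {G H : Type} [Group G] [Group H] {K : Subgroup G} (h : K.FG) (f : G →* H) : (K.map f).FG := by
  classical
  obtain ⟨S, hS⟩ := h
  refine ⟨S.image f, ?_⟩
  rw [Finset.coe_image, ← MonoidHom.map_closure, hS]

private theorem vp_bot {A : Type} [Group A] [Subsingleton A] : VP A := ⟨0, (inferInstance : Subsingleton A)⟩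

private theorem vc_vp {A : Type} [Group A] (h : VirtuallyCyclic A) : VP A := by
  refine vp_ext (MonoidHom.id A) Function.surjective_id ?_ h
  have h1 : Subsingleton (MonoidHom.id A).ker := by
    refine ⟨?_⟩
    rintro ⟨a, ha⟩ ⟨b, hb⟩
    have ha' : a = 1 := ha
    have hb' : b = 1 := hb
    exact Subtype.ext (ha'.trans hb'.symm)
  exact vp_bot

private theorem lng_cj {G V : Type} [Group G] [MulAction G V] {X : SimpleGraph V} (hX : OnTree G X) {k n : ℕ} (g : G) (a b : V)
    (h : ∀ x y : V, k ≤ X.dist x y → Btw X a b x y →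
      VPn n (Ps G x y) ∧ ∀ F : Subgroup G, F ≤ Ps G x y → (F : Set G).Finite → (F : Set G).ncard ≤ n) :
    ∀ x y : V, k ≤ X.dist x y → Btw X (g • a) (g • b) x y →
      VPn n (Ps G x y) ∧ ∀ F : Subgroup G, F ≤ Ps G x y → (F : Set G).Finite → (F : Set G).ncard ≤ n := by
  intro x y hxy hab
  have e : ∀ u v : V, X.dist (g⁻¹ • u) (g⁻¹ • v) = X.dist u v := fun u v => dist_sm' hX g⁻¹ u v
  have e' : ∀ u v : V, X.dist (g⁻¹ • u) v = X.dist u (g • v) := fun u v => by
    rw [← e u (g • v), inv_smul_smul]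
  have e'' : ∀ u v : V, X.dist v (g⁻¹ • u) = X.dist (g • v) u := fun u v => by
    rw [← e (g • v) u, inv_smul_smul]
  obtain ⟨h1, h2⟩ := h (g⁻¹ • x) (g⁻¹ • y) (by rw [e]; exact hxy) (by
    unfold Btw at hab ⊢
    rw [e, e', e'']
    exact hab)
  have hm : ∀ z ∈ Ps G x y, g⁻¹ * z * g ∈ Ps G (g⁻¹ • x) (g⁻¹ • y) := by
    rintro z ⟨h3, h4⟩
    change z • x = x at h3
    change z • y = y at h4
    refine ⟨?_, ?_⟩
    · show (g⁻¹ * z * g) • g⁻¹ • x = g⁻¹ • x
      rw [mul_smul, mul_smul, smul_inv_smul, h3]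
    · show (g⁻¹ * z * g) • g⁻¹ • y = g⁻¹ • y
      rw [mul_smul, mul_smul, smul_inv_smul, h4]
  refine ⟨?_, ?_⟩
  · let f : Ps G x y →* Ps G (g⁻¹ • x) (g⁻¹ • y) :=
      { toFun := fun z => ⟨g⁻¹ * z.1 * g, hm z.1 z.2⟩
        map_one' := by
          apply Subtype.ext
          show g⁻¹ * (1 : G) * g = 1
          group
        map_mul' := by
          intro u v
          apply Subtype.ext
          show g⁻¹ * ((u : G) * (v : G)) * g = (g⁻¹ * (u : G) * g) * (g⁻¹ * (v : G) * g)
          group }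
    refine vpn_inj f ?_ h1
    intro u v huv
    have h3 : g⁻¹ * (u : G) * g = g⁻¹ * (v : G) * g := congrArg (fun z : Ps G (g⁻¹ • x) (g⁻¹ • y) => (z : G)) huv
    exact Subtype.ext (mul_left_cancel (mul_right_cancel h3))
  · intro F hF hf
    have h3 := h2 (F.map (MulAut.conj g⁻¹).toMonoidHom) (by
      rintro _ ⟨z, hz, rfl⟩
      show g⁻¹ * z * g⁻¹⁻¹ ∈ Ps G (g⁻¹ • x) (g⁻¹ • y)
      rw [inv_inv]
      exact hm z (hF hz)) (by
      rw [Subgroup.coe_map]
      exact hf.image _)
    rw [Subgroup.coe_map] at h3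
    rwa [Set.ncard_image_of_injective _ (show Function.Injective (MulAut.conj g⁻¹).toMonoidHom from
      (MulAut.conj g⁻¹).injective)] at h3

theorem mainM_fg {C : (G : Type) → [Group G] → Prop} (hC : Inherits C) (hT : Transfer C)
    (hS : ∀ (G : Type) [Group G], Group.IsSolvable G → C G) {G V : Type} [Group G] [MulAction G V] (hfg : Group.FG G)
    {X : SimpleGraph V} (hX : OnTree G X) (hv : ∀ v : V, C (MulAction.stabilizer G v)) {k : ℕ} (hk : 1 ≤ k)
    (hE : Lng G X k)
    (hb : ∀ P : Subgroup G, Infinite P → (∃ v w : V, k ≤ X.dist v w ∧ P ≤ Ps G v w) →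
      BalS P ∧ BdP X k P ∨ C (Subgroup.Commensurable.commensurator P)) : C G := by
  obtain ⟨W, Y, hY, hYX, hB⟩ := exists_subtree hX hfg
  obtain ⟨n, hn⟩ := hB (fun n a b => ∀ x y : V, k ≤ X.dist x y → Btw X a b x y →
      VPn n (Ps G x y) ∧ ∀ F : Subgroup G, F ≤ Ps G x y → (F : Set G).Finite → (F : Set G).ncard ≤ n)
    (fun m n a b hmn h x y hxy hab => ⟨vpn_mono hmn (h x y hxy hab).1, fun F hF hf => ((h x y hxy hab).2 F hF hf).trans hmn⟩)
    (fun n g a b h => lng_cj hX g a b h) hE
  have hds : ∀ x y : W, X.dist (x : V) y = Y.dist x y := fun x y =>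
    sub_dist hX.tree hY.tree (ι := fun w : W => (w : V)) Subtype.val_injective hYX x y
  have hlong : ∀ x y : W, k ≤ Y.dist x y →
      VPn n (Ps G x y) ∧ ∀ F : Subgroup G, F ≤ Ps G x y → (F : Set G).Finite → (F : Set G).ncard ≤ n := by
    intro x y hxy
    have hne : x ≠ y := by
      rintro rfl
      rw [SimpleGraph.dist_self] at hxy
      omega
    obtain ⟨a, b, hab, hbt⟩ := edge_btw hY.tree hne
    rw [ps_val]
    refine hn a b hab x y (by rw [hds]; exact hxy) ?_
    unfold Btw at hbt ⊢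
    rw [hds, hds, hds]
    exact hbt
  have hvW : ∀ w : W, C (MulAction.stabilizer G w) := fun w => by
    rw [stab_val]
    exact hv w
  have hbW : ∀ P : Subgroup G, Infinite P → (∃ v w : W, k ≤ Y.dist v w ∧ P ≤ Ps G v w) →
      BalS P ∧ BdP Y k P ∨ C (Subgroup.Commensurable.commensurator P) := by
    rintro P hP ⟨v, w, h1, h2⟩
    rcases hb P hP ⟨v, w, by rw [hds]; exact h1, h2.trans_eq (ps_val W v w)⟩ with ⟨h3, h4⟩ | h3
    · refine Or.inl ⟨h3, ?_⟩
      rintro N a b hab ⟨P', h5, h6, h7⟩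
      obtain ⟨m, hm⟩ := h4 N a b (hYX a b hab) ⟨P', h5, h6, h7.trans_eq (ps_val W a b)⟩
      refine ⟨m, fun R x y hxy hbt hNR hR hRC hRN => hm R x y (by rw [hds]; exact hxy)
        (btw_tr hX.tree hY.tree (ι := fun w : W => (w : V)) Subtype.val_injective hYX hbt) hNR
        (hR.trans_eq (ps_val W x y)) hRC hRN⟩
    · exact Or.inr h3
  have hFW : Lng G Y k := fun _ _ _ => ⟨n, fun x y hxy _ => hlong x y hxy⟩
  refine Pool.Agent.H75.CK.com_ext hC hT hfg (MonoidHom.id G) Function.surjective_id hY (k := k) (D := n) (N := n) ?_ ?_ ?_ ?_ ?_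
  · intro w
    rw [Subgroup.comap_id]
    exact hvW w
  · intro _ _ _ U hU
    rw [Subgroup.comap_id]
    exact vp_mem hC hS (vc_vp hU)
  · intro P hP hP' l
    obtain ⟨x, y, hxy, h0⟩ := hP 0
    have hanti : ∀ i, P i ≤ P 0 := by
      intro i
      induction i with
      | zero => exact le_rfl
      | succ i ih => exact (hP' i).trans ih
    exact ch_sub (hlong x y hxy).1 P (fun i => (hanti i).trans h0.le) hP' l
  · intro x y hxy hfin
    exact (hlong x y hxy).2 _ le_rfl hfin
  · intro x y hxy hinf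
    rw [Subgroup.comap_id]
    exact indm hC hT hS hY hvW hk (fun v w h => (hlong v w h).1) hFW hbW (Set.infinite_coe_iff.2 hinf) ⟨x, y, hxy, le_rfl⟩

theorem mainM {C : (G : Type) → [Group G] → Prop} (hC : Inherits C) (hT : Transfer C)
    (hS : ∀ (G : Type) [Group G], Group.IsSolvable G → C G) {G V : Type} [Group G] [MulAction G V]
    {X : SimpleGraph V} (hX : OnTree G X) (hv : ∀ v : V, C (MulAction.stabilizer G v)) {k : ℕ} (hk : 1 ≤ k)
    (hE : Lng G X k)
    (hb : ∀ P : Subgroup G, Infinite P → (∃ v w : V, k ≤ X.dist v w ∧ P ≤ Ps G v w) →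
      BalS P ∧ BdP X k P ∨ C (Subgroup.Commensurable.commensurator P)) : C G := by
  refine of_fg hC G (fun K hK => ?_)
  have hfg : Group.FG K := (Group.fg_iff_subgroup_fg _).2 hK
  have hmap : ∀ (P : Subgroup K) (v w : V), P ≤ Ps K v w → P.map K.subtype ≤ Ps G v w := by
    rintro P v w h _ ⟨x, hx, rfl⟩
    exact ⟨(h hx).1, (h hx).2⟩
  have hinf : ∀ P : Subgroup K, Infinite P → Infinite (P.map K.subtype) := fun P hP =>
    Infinite.of_injective _ (P.equivMapOfInjective K.subtype K.subtype_injective).injective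
  have hEK : Lng K X k := lng_tr hX.tree hX.tree K.subtype K.subtype_injective (ι := fun v : V => v) Function.injective_id
    (fun _ _ => rfl) (fun _ _ h => h) hE
  refine mainM_fg hC hT hS hfg (res_onTree hX K) (res_stab hC hv K) hk hEK ?_
  rintro P hP ⟨v, w, h1, h2⟩
  rcases hb _ (hinf P hP) ⟨v, w, h1, hmap P v w h2⟩ with ⟨h3, hBd⟩ | h3
  · left
    refine ⟨?_, ?_⟩
    swap
    · rintro N a b hab ⟨P', h4, h5, h6⟩
      obtain ⟨m, hm⟩ := hBd (N.map K.subtype) a b hab ⟨P'.map K.subtype, Subgroup.map_mono h4, by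
        rw [Subgroup.relIndex_map_map_of_injective _ _ K.subtype_injective]
        exact h5, hmap P' a b h6⟩
      refine ⟨m, fun R x y hxy hbt hNR hR hRC hRN => ?_⟩
      rw [← Subgroup.relIndex_map_map_of_injective N R K.subtype_injective]
      refine hm (R.map K.subtype) x y hxy hbt (Subgroup.map_mono hNR) (hmap R x y hR) ?_ ?_
      · rintro _ ⟨r, hr, rfl⟩
        exact (com_sub P r).1 (hRC hr)
      · rintro _ ⟨r, hr, rfl⟩
        have h8 := Subgroup.mem_normalizer_iff.1 (hRN hr)
        rw [Subgroup.mem_normalizer_iff]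
        intro z
        constructor
        · rintro ⟨y, hy, rfl⟩
          exact ⟨r * y * r⁻¹, (h8 y).1 hy, rfl⟩
        · rintro ⟨y, hy, hyz⟩
          have hyz' : (y : G) = (r : G) * z * (r : G)⁻¹ := hyz
          refine ⟨r⁻¹ * y * r, ?_, ?_⟩
          · have h9 : r * (r⁻¹ * y * r) * r⁻¹ = y := by group
            exact (h8 (r⁻¹ * y * r)).2 (by rw [h9]; exact hy)
          · show (r : G)⁻¹ * (y : G) * (r : G) = z
            rw [hyz']
            group
    intro H hH hHc
    obtain ⟨P', h4, h5, h6⟩ := h3 (H.map K.subtype) (fg_map hH K.subtype) (by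
      rintro _ ⟨x, hx, rfl⟩
      exact (com_sub P x).1 (hHc hx))
    refine ⟨P'.comap K.subtype, ?_, ?_, ?_⟩
    · intro x hx
      obtain ⟨y, hy, hyx⟩ := h4 hx
      rwa [← K.subtype_injective hyx]
    · have h7 : (P'.comap K.subtype).map K.subtype = P' := by
        apply Subgroup.map_comap_eq_self
        intro x hx
        obtain ⟨y, -, hyx⟩ := h4 hx
        exact ⟨y, hyx⟩
      rw [← Subgroup.relIndex_map_map_of_injective _ _ K.subtype_injective, h7]
      exact h5
    · intro x hx
      have h8 := Subgroup.mem_normalizer_iff.1 (h6 ⟨x, hx, rfl⟩)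
      rw [Subgroup.mem_normalizer_iff]
      intro y
      exact h8 (y : G)
  · right
    refine hC.of_injective (H := (Subgroup.Commensurable.commensurator (P.map K.subtype) : Subgroup G))
      { toFun := fun x => ⟨((x.1 : K) : G), (com_sub P x.1).1 x.2⟩
        map_one' := rfl
        map_mul' := fun _ _ => rfl } ?_ h3
    intro a b hab
    have h4 : ((a.1 : K) : G) = b.1 :=
      congrArg (fun z : (Subgroup.Commensurable.commensurator (P.map K.subtype) : Subgroup G) => (z : G)) hab
    exact Subtype.ext (Subtype.ext h4)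

end Pool.Agent.H75.CK
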