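import Pool.Agent.H75.CK.Sm0
import Pool.Agent.H75.CX.Fx

/-!
# [H75 CK Smp] the step: subgroups which normalise a subgroup of a path stabiliser

As Pool/Agent/H75/CX/Stp.lean; conditions `Lng`, `BdP` for the long paths, `step0m`.
-/

set_option autoImplicit false

namespace Pool.Agent.H75.CK

open Pool.Agent.H98.FJ Pool.Agent.H93.TR Pool.Agent.H76.VC Pool.Agent.H76.GT Pool.Agent.H75.CX

theorem stepm {C : (G : Type) → [Group G] → Prop} (hC : Inherits C) (hT : Transfer C)
    (hS : ∀ (G : Type) [Group G], Group.IsSolvable G → C G) {G V : Type} [Group G] [MulAction G V]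
    {X : SimpleGraph V} (hX : OnTree G X) (hv : ∀ v : V, C (MulAction.stabilizer G v))
    {k : ℕ} (hk : 1 ≤ k) (hE : Lng G X k) {P : Subgroup G} (hBn : BdP X k P) {H P' : Subgroup G} (hH : H.FG)
    (hHP : H ≤ Subgroup.Commensurable.commensurator P) (hP' : P' ≤ P) (hPi : P'.relIndex P ≠ 0)
    (hn : H ≤ Subgroup.normalizer (P' : Set G)) (v0 : V) (h0 : ∀ y ∈ P', y • v0 = v0)
    (hcm : ∀ P : Subgroup G, P' ≤ P → P'.relIndex P = 0 → (∃ v w : V, k ≤ X.dist v w ∧ P ≤ Ps G v w) →
      C (Subgroup.Commensurable.commensurator P)) : C H := by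
  obtain ⟨W, hW, hY⟩ := fix_tree' hX hn v0 h0
  have hval : ∀ (g : H) (w : W), g • w = w → (g : G) • (w : V) = w := fun g w h =>
    congrArg (fun x : W => (x : V)) h
  refine step0m hC hT hS (H := H) (V := W) ((Group.fg_iff_subgroup_fg H).2 hH) hY ?_ hk
    (lng_tr hX.tree hY.tree H.subtype H.subtype_injective (ι := fun w : W => (w : V)) Subtype.val_injective
      (fun _ _ => rfl) (fun _ _ h => h) hE) ?_ ?_
  · intro w
    refine hC.of_injective (H := MulAction.stabilizer G (w : V))
      { toFun := fun x => ⟨((x.1 : H) : G), hval _ _ x.2⟩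
        map_one' := rfl
        map_mul' := fun _ _ => rfl } ?_ (hv w)
    intro a b hab
    exact Subtype.ext (Subtype.ext (congrArg (fun y : MulAction.stabilizer G (w : V) => (y : G)) hab))
  · intro N a b hN hab
    obtain ⟨m, hm⟩ := hBn (N.map H.subtype) a b hab
      ⟨P', hP', hPi, fun y hy => ⟨(hW a).1 a.2 y hy, (hW b).1 b.2 y hy⟩⟩
    refine ⟨m, fun R x y hxy hbt hNR hR => ?_⟩
    rw [← Subgroup.relIndex_map_map_of_injective N R H.subtype_injective]
    refine hm (R.map H.subtype) x y ?_ (btw_tr hX.tree hY.tree (ι := fun w : W => (w : V)) Subtype.val_injective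
      (fun _ _ h => h) hbt) (Subgroup.map_mono hNR) ?_ ?_ ?_
    · rw [sub_dist hX.tree hY.tree (ι := fun w : W => (w : V)) Subtype.val_injective (fun _ _ h => h) x y]
      exact hxy
    · rintro _ ⟨r, hr, rfl⟩
      exact ps_tr H.subtype (ι := fun w : W => (w : V)) (fun _ _ => rfl) (hR hr)
    · rintro _ ⟨r, _, rfl⟩
      exact hHP r.2
    · rintro _ ⟨r, _, rfl⟩
      rw [Subgroup.mem_normalizer_iff]
      intro z
      constructor
      · rintro ⟨y, hy, rfl⟩
        exact ⟨r * y * r⁻¹, hN.conj_mem y hy r, rfl⟩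
      · rintro ⟨y, hy, hyz⟩
        have hyz' : (y : G) = (r : G) * z * (r : G)⁻¹ := hyz
        refine ⟨r⁻¹ * y * r⁻¹⁻¹, hN.conj_mem y hy r⁻¹, ?_⟩
        show (r : G)⁻¹ * (y : G) * ((r : G)⁻¹)⁻¹ = z
        rw [hyz']
        group
  · intro x y hxy h
    have hle : P'.subgroupOf H ≤ Kf H W := by
      intro g hg
      rw [Subgroup.mem_subgroupOf] at hg
      refine mem_kf.2 fun w => Subtype.ext ?_
      exact (hW w).1 w.2 _ hg
    have h1 : (P'.subgroupOf H).relIndex (Ps H x y) = 0 := Subgroup.relIndex_eq_zero_of_le_left hle h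
    have hRH : (Ps H x y).map H.subtype ≤ H := by
      rintro _ ⟨g, -, rfl⟩
      exact g.2
    have hRn : (Ps H x y).map H.subtype ≤ Subgroup.normalizer (P' : Set G) := hRH.trans hn
    have hR : ((Ps H x y).map H.subtype).subgroupOf H = Ps H x y :=
      Subgroup.comap_map_eq_self_of_injective H.subtype_injective _
    have h2 : (P' ⊓ (Ps H x y).map H.subtype).relIndex ((Ps H x y).map H.subtype) = 0 := by
      rw [Subgroup.inf_relIndex_right, ← Subgroup.relIndex_subgroupOf hRH, hR]
      exact h1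
    have h3 := rel_sup hRn h2
    have hd : k ≤ X.dist (x : V) (y : V) := by
      rw [sub_dist hX.tree hY.tree (ι := fun w : W => (w : V)) Subtype.val_injective (fun _ _ h => h) x y]
      exact hxy
    have h4 : (Ps H x y).map H.subtype ⊔ P' ≤ Ps G (x : V) (y : V) := by
      refine sup_le ?_ ?_
      · rintro _ ⟨g, hg, rfl⟩
        exact ⟨hval g x hg.1, hval g y hg.2⟩
      · intro g hg
        exact ⟨(hW x).1 x.2 g hg, (hW y).1 y.2 g hg⟩
    have h5 := hcm _ le_sup_right h3 ⟨x, y, hd, h4⟩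
    refine hC.of_injective (H := Subgroup.Commensurable.commensurator ((Ps H x y).map H.subtype ⊔ P'))
      { toFun := fun g => ⟨((g.1 : H) : G), com_sup hRn (hn g.1.2) ((com_sub (Ps H x y) g.1).1 g.2)⟩
        map_one' := rfl
        map_mul' := fun _ _ => rfl } ?_ h5
    intro a b hab
    exact Subtype.ext (Subtype.ext (congrArg (fun y : Subgroup.Commensurable.commensurator
      ((Ps H x y).map H.subtype ⊔ P') => (y : G)) hab))

end Pool.Agent.H75.CK
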